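import Pool.Agent.P.MP_e794d7_al.FC.Final

set_option autoImplicit false

namespace Pool.Agent.Results.MP_e794d7_al.FCType

open Pool.Agent.P.MP_e794d7_al

theorem result :
    ∀ (r : ℕ) (M : CoxeterMatrix (Fin r)),
      (∀ T : Finset (Fin r), (∀ s ∈ T, ∀ t ∈ T, M s t ≠ 0) →
        ∃ c : Fin r → ℕ, (∀ s ∈ T, ∀ t ∈ T, c s ≠ c t → M s t = 2) ∧ ∀ k : ℕ,
          (T.filter fun s => c s = k).card ≤ 2 ∨
          (∃ e : Fin r → ℕ, ∀ s ∈ T, ∀ t ∈ T, c s = k → c t = k → M s t =
            if e s = e t then 1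
            else if e s + 1 = e t ∨ e t + 1 = e s then (if e s = 0 ∨ e t = 0 then 4 else 3)
            else 2) ∨
          (∃ e : Fin r → ℕ, ∀ s ∈ T, ∀ t ∈ T, c s = k → c t = k → M s t =
            if e s = e t then 1
            else if max (e s) 1 + 1 = max (e t) 1 ∨ max (e t) 1 + 1 = max (e s) 1 then 3
            else 2)) →
      ∀ (G : Type) [Group G],
      Nonempty (G ≃* PresentedGroup (Set.range fun p : Fin r × Fin r =>
        ((List.range (M p.1 p.2)).map fun k =>
            if Even k then FreeGroup.of p.1 else FreeGroup.of p.2).prod *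
        (((List.range (M p.1 p.2)).map fun k =>
            if Even k then FreeGroup.of p.2 else FreeGroup.of p.1).prod)⁻¹)) →
      ∀ (A : Type) [AddCommGroup A] [DistribMulAction G A], Finite A →
        ∀ (m : ℕ) (f : (Fin (m + 1) → G) → A),
          (∀ g : Fin (m + 2) → G,
            g 0 • f (fun i => g i.succ) +
              ∑ j : Fin (m + 2), ((-1 : ℤ) ^ ((j : ℕ) + 1)) •
                f (Fin.contractNth j (· * ·) g) = 0) →
          ∃ N : Subgroup G, N.FiniteIndex ∧
            ∃ h : (Fin m → N) → A, ∀ g : Fin (m + 1) → N,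
              f (fun i => (g i : G)) =
                (g 0 : G) • h (fun i => g i.succ) +
                  ∑ j : Fin (m + 1), ((-1 : ℤ) ^ ((j : ℕ) + 1)) •
                    h (Fin.contractNth j (· * ·) g) := by
  intro r M ht G _ ⟨e⟩ A _ _ hA m f hf
  have h := FC.good_classical (fun a b => M a b) ⟨fun a b => M.symmetric a b,
    fun a => M.diagonal a, fun a b h => M.off_diagonal a b h⟩ fun T hT => by
      classical
      have hm : ∀ s, s ∈ T.toFinset ↔ s ∈ T := fun s => Set.mem_toFinset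
      obtain ⟨c, h1, h2⟩ := ht T.toFinset fun s hs t ht => hT s ((hm s).1 hs) t ((hm t).1 ht)
      refine ⟨c, fun s hs t ht => h1 s ((hm s).2 hs) t ((hm t).2 ht), fun k => ?_⟩
      rcases h2 k with h | ⟨e, h⟩ | ⟨e, h⟩
      · refine Or.inr (Or.inr ⟨fun a ha b hb => hT a ha.1 b hb.1, fun a ha b hb d hd => ?_⟩)
        by_contra hne
        push Not at hne
        have h3 : 2 < (T.toFinset.filter fun s => c s = k).card := Finset.two_lt_card_iff.2
          ⟨a, b, d, Finset.mem_filter.2 ⟨(hm a).2 ha.1, ha.2⟩,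
            Finset.mem_filter.2 ⟨(hm b).2 hb.1, hb.2⟩, Finset.mem_filter.2 ⟨(hm d).2 hd.1, hd.2⟩,
            hne⟩
        exact absurd h (not_le.2 h3)
      · exact Or.inl ⟨0, e, fun a ha b hb _ =>
          h a ((hm a).2 ha.1) b ((hm b).2 hb.1) ha.2 hb.2⟩
      · exact Or.inr (Or.inl ⟨e, fun a ha b hb _ =>
          h a ((hm a).2 ha.1) b ((hm b).2 hb.1) ha.2 hb.2⟩)
  exact (h.of_equiv e.symm).inhom A hA m f hf

end Pool.Agent.Results.MP_e794d7_al.FCType
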